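import Pool.Agent.W_4481e3_q87.GoR
import Pool.Agent.W_4481e3_tab.T4

/-!
Tree s32o4, data 9.
-/

namespace Pool.Agent.W_4481e3_rt.s32o4

open Pool.Agent.W_4481e3_q25.EvR

theorem k187 : ckO Pool.Agent.W_4481e3_tab.T4.tab 24352 36160 134217728 262144 370278 524288 19 3670016 524288 2621440 524288 511768002 526006269 3798635 3692383 268412836 268439399 16777216 16777216 529531 529531 0x102000c00003c02000c02004c21203070c03000c03004c03004c03004c03004c04004c2121203004c03004c103004c04004c104004c06000c204004c04004c04004c2106038c06038c07000c2121204004c03004c04004c04004c12104004c07000c204004c07000c07038c07038c212107000c07000c207000c07038c07038c2107000c07038c07038c21212aa0501cc3a14a0501cc04004c0501cc214304004c05014c204004c0800bf21404004c05004c0800bf1203007c40800bf03007c40800bf21303007c9403003c34aa0800bf0800bf20800bf1430501cc07004c0800bf120800be0800bf2109010d40500ac06002d20800bf106002d4340800bf0800bf203007c0900bf203007c340800bf0800bf0800bf421309010d03007c303003c403007c3421204004c03004c04004c2103007c03007c03007c03007c21203007c0800bf10800bf0800bf20800bf12103007c400009c303007c4231828827a6e072121 = true := by decide +kernel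

theorem k191 : ckO Pool.Agent.W_4481e3_tab.T4.tab 24352 36160 134217728 262144 370278 524288 5 3670016 524288 2621440 524288 515354132 515354132 7172260 7172260 268435456 268435456 16777216 16777216 529531 529531 0x100003c00003c02000c1202000c02000c03000c202000c03000c2121 = true := by decide +kernel

theorem k194 : ckO Pool.Agent.W_4481e3_tab.T4.tab 24352 36160 134217728 262144 370278 524288 4 3670016 524288 2621440 524288 522526392 493837352 14344520 14344520 268435456 268435456 16777216 16777216 529531 529531 0x100007c00003c01004c01001c121 = true := by decide +kernel

theorem k196 : ckO Pool.Agent.W_4481e3_tab.T4.tab 24352 36160 134217728 262144 370278 524288 6 3670016 524288 2621440 524288 493837352 508181872 14344520 28689040 268435456 268435456 16777216 16777216 529531 529531 0x100000c00000c00003c00003c00003c00003c21212 = true := by decide +kernel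

end Pool.Agent.W_4481e3_rt.s32o4
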